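import Pool.Agent.Helper45.FG.St

/-!
Project FG, module DIR: the pigeonhole (Dirichlet) lemma in a real Galois number field.
-/

set_option autoImplicit false

namespace Pool.Agent.Helper9.FG

open Pool.Agent.Helper45.FG
open scoped BigOperators

private lemma basisLem (K : IntermediateField ℚ ℝ) [FiniteDimensional ℚ K] :
    ∃ (J : Type) (_ : Fintype J) (e : J → K), Fintype.card J + 1 = Module.finrank ℚ K ∧
      (∀ j, IsIntegral ℤ (e j)) ∧
      ∀ (m : J → ℤ) (q : ℚ), ∑ j, (m j : K) * e j = algebraMap ℚ K q → ∀ j, m j = 0 := by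
  classical
  obtain ⟨s, b, hb⟩ := FiniteDimensional.exists_is_basis_integral ℤ ℚ K
  have h1 : b.repr 1 ≠ 0 := by
    intro h
    exact one_ne_zero (b.repr.map_eq_zero_iff.mp h)
  obtain ⟨i0, hi0⟩ : ∃ i, b.repr 1 i ≠ 0 := by
    by_contra hcon
    push Not at hcon
    exact h1 (Finsupp.ext hcon)
  refine ⟨{i : s // i ≠ i0}, inferInstance, fun j => b j.1, ?_, fun j => hb _, ?_⟩
  · have hc : Fintype.card {i : s // i ≠ i0} = Fintype.card s - 1 := by
      have := Set.card_ne_eq i0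
      exact this
    have hpos : 0 < Fintype.card s := Fintype.card_pos_iff.mpr ⟨i0⟩
    rw [hc, Module.finrank_eq_card_basis b]
    omega
  · intro m q hm
    have key : ∀ i : s, ∑ j : {i : s // i ≠ i0}, (if j.1 = i then (m j : ℚ) else 0)
        = q * b.repr 1 i := by
      intro i
      have h2 : b.repr (∑ j : {i : s // i ≠ i0}, (m j : ℚ) • b j.1) i
          = b.repr (q • (1 : K)) i := by
        rw [← Algebra.algebraMap_eq_smul_one, ← hm]
        congr 2
      rw [map_sum, Finsupp.finsetSum_apply, map_smul, Finsupp.smul_apply] at h2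
      rw [smul_eq_mul] at h2
      rw [← h2]
      refine Finset.sum_congr rfl fun j _ => ?_
      rw [map_smul, Finsupp.smul_apply, b.repr_self, Finsupp.single_apply, smul_eq_mul]
      split_ifs <;> simp
    have hq : q = 0 := by
      have h3 := key i0
      rw [Finset.sum_eq_zero (fun j _ => if_neg j.2)] at h3
      rcases mul_eq_zero.mp h3.symm with h | h
      · exact h
      · exact absurd h hi0
    intro j
    have h4 := key j.1
    rw [hq, zero_mul, Finset.sum_eq_single j] at h4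
    · rw [if_pos rfl] at h4
      exact_mod_cast h4
    · intro j' _ hne
      exact if_neg (fun h => hne (Subtype.ext h))
    · intro h
      exact absurd (Finset.mem_univ _) h

private lemma chooseM (A m : ℕ) (hA : 1 ≤ A) (hm : 1 ≤ m) :
    ∃ M : ℕ, 1 ≤ M ∧ (M + 1) ^ m < (A + 1) ^ (m + 1) ∧ (A + 1) ^ (m + 1) ≤ (M + 2) ^ m := by
  classical
  have hex : ∃ M : ℕ, (A + 1) ^ (m + 1) ≤ (M + 1) ^ m := by
    refine ⟨(A + 1) ^ (m + 1), ?_⟩
    calc (A + 1) ^ (m + 1) ≤ (A + 1) ^ (m + 1) + 1 := Nat.le_succ _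
      _ ≤ ((A + 1) ^ (m + 1) + 1) ^ m := Nat.le_self_pow (by omega) _
  have hspec := Nat.find_spec hex
  have hmin := fun {k : ℕ} (h : k < Nat.find hex) => Nat.find_min hex h
  set M' := Nat.find hex with hM'
  have hpw : 2 ^ (m + 1) ≤ (A + 1) ^ (m + 1) := Nat.pow_le_pow_left (by omega) _
  have h2 : 2 ^ m < 2 ^ (m + 1) := Nat.pow_lt_pow_right (by norm_num) (Nat.lt_succ_self m)
  have h2' : 1 ≤ 2 ^ m := Nat.one_le_two_pow
  have h0 : M' ≠ 0 := by
    intro h
    rw [h] at hspec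
    simp only [zero_add, one_pow] at hspec
    omega
  have h1 : M' ≠ 1 := by
    intro h
    rw [h] at hspec
    norm_num at hspec
    omega
  refine ⟨M' - 1, by omega, ?_, ?_⟩
  · have h := hmin (k := M' - 1) (by omega)
    push Not at h
    exact h
  · have h : M' - 1 + 2 = M' + 1 := by omega
    rw [h]
    exact hspec

private lemma arith (m A M : ℕ) (E B w : ℝ) (hE : 1 ≤ E) (hB : 0 < B)
    (hA : B / E < (A : ℝ) + 1) (hM : 1 ≤ M) (hM2 : (A + 1) ^ (m + 1) ≤ (M + 2) ^ m)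
    (hw0 : 0 ≤ w) (hw : w ≤ 2 * B / M) : w ^ m * B ≤ 6 ^ m * E ^ (m + 1) := by
  have hM' : (1 : ℝ) ≤ M := by exact_mod_cast hM
  have hMpos : (0 : ℝ) < M := by linarith
  have hEpos : 0 < E := by linarith
  have hM2' : ((A : ℝ) + 1) ^ (m + 1) ≤ ((M : ℝ) + 2) ^ m := by exact_mod_cast hM2
  have h3 : ((M : ℝ) + 2) ^ m ≤ (3 * (M : ℝ)) ^ m :=
    pow_le_pow_left₀ (by linarith) (by linarith) _
  have h4 : (B / E) ^ (m + 1) ≤ ((A : ℝ) + 1) ^ (m + 1) :=
    pow_le_pow_left₀ (by positivity) hA.le _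
  have h5 : B ^ (m + 1) ≤ (3 * (M : ℝ)) ^ m * E ^ (m + 1) := by
    have h6 : (B / E) ^ (m + 1) ≤ (3 * (M : ℝ)) ^ m := h4.trans (hM2'.trans h3)
    rw [div_pow, div_le_iff₀ (by positivity)] at h6
    exact h6
  have h7 : w ^ m * B ≤ (2 * B / M) ^ m * B :=
    mul_le_mul_of_nonneg_right (pow_le_pow_left₀ hw0 hw _) hB.le
  refine h7.trans ?_
  have hpos : (0 : ℝ) < (3 * (M : ℝ)) ^ m := by positivity
  have h8 : (2 * B / M) ^ m * B * (3 * (M : ℝ)) ^ m = 6 ^ m * B ^ (m + 1) := by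
    have h9 : (2 * B / M) ^ m * (3 * (M : ℝ)) ^ m = (6 * B) ^ m := by
      rw [← mul_pow]
      congr 1
      field_simp
      ring
    calc (2 * B / M) ^ m * B * (3 * (M : ℝ)) ^ m
        = ((2 * B / M) ^ m * (3 * (M : ℝ)) ^ m) * B := by ring
      _ = 6 ^ m * B ^ (m + 1) := by rw [h9, mul_pow]; ring
  have h10 : (2 * B / M) ^ m * B * (3 * (M : ℝ)) ^ m
      ≤ 6 ^ m * E ^ (m + 1) * (3 * (M : ℝ)) ^ m := by
    rw [h8]
    calc (6 : ℝ) ^ m * B ^ (m + 1) ≤ 6 ^ m * ((3 * (M : ℝ)) ^ m * E ^ (m + 1)) :=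
          mul_le_mul_of_nonneg_left h5 (by positivity)
      _ = 6 ^ m * E ^ (m + 1) * (3 * (M : ℝ)) ^ m := by ring
  exact le_of_mul_le_mul_right h10 hpos

private lemma floorLem (B v v' : ℝ) (M : ℕ) (hB : 0 < B) (hM : 1 ≤ M) (hv : |v| ≤ B)
    (hv' : |v'| ≤ B)
    (h : ⌊(v + B) * M / (2 * B)⌋₊ = ⌊(v' + B) * M / (2 * B)⌋₊) : |v - v'| ≤ 2 * B / M := by
  have hMpos : (0 : ℝ) < M := by exact_mod_cast hM
  have hv1 := abs_le.mp hv
  have hv2 := abs_le.mp hv'
  have a0 : 0 ≤ (v + B) * M / (2 * B) :=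
    div_nonneg (mul_nonneg (by linarith [hv1.1]) hMpos.le) (by linarith)
  have a0' : 0 ≤ (v' + B) * M / (2 * B) :=
    div_nonneg (mul_nonneg (by linarith [hv2.1]) hMpos.le) (by linarith)
  have a1 := Nat.floor_le a0
  have a2 := Nat.lt_floor_add_one ((v + B) * M / (2 * B))
  have a1' := Nat.floor_le a0'
  have a2' := Nat.lt_floor_add_one ((v' + B) * M / (2 * B))
  rw [h] at a1 a2
  have hd : |(v + B) * M / (2 * B) - (v' + B) * M / (2 * B)| ≤ 1 := by
    rw [abs_le]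
    constructor <;> linarith
  have he : (v + B) * M / (2 * B) - (v' + B) * M / (2 * B) = (v - v') * (M / (2 * B)) := by
    field_simp
    ring
  rw [he, abs_mul, abs_of_pos (show (0 : ℝ) < M / (2 * B) by positivity)] at hd
  rw [le_div_iff₀ hMpos]
  have : |v - v'| * (M / (2 * B)) * (2 * B) ≤ 1 * (2 * B) :=
    mul_le_mul_of_nonneg_right hd (by linarith)
  have h3 : |v - v'| * (M / (2 * B)) * (2 * B) = |v - v'| * M := by
    field_simp
  linarith

theorem hDIR : StDIR := by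
  classical
  intro K hfd hgal hn t0 ht0
  have := hfd
  have := hgal
  obtain ⟨J, hJ, e, hcard, hint, hlin⟩ := basisLem K
  obtain ⟨m, hm⟩ : ∃ m, Module.finrank ℚ K = m + 2 := ⟨Module.finrank ℚ K - 2, by omega⟩
  have hm1 : 1 ≤ m := by omega
  have hcJ : Fintype.card J = m + 1 := by omega
  have : Finite (K ≃ₐ[ℚ] K) := inferInstance
  let : Fintype (K ≃ₐ[ℚ] K) := Fintype.ofFinite _
  have hcG : Fintype.card (K ≃ₐ[ℚ] K) = m + 2 := by
    rw [← Nat.card_eq_fintype_card, ← hm]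
    exact IsGalois.card_aut_eq_finrank ℚ K
  set S : (K ≃ₐ[ℚ] K) → ℝ := fun t => ∑ j, |((e j : K) : ℝ) - ((t (e j) : K) : ℝ)| with hS
  have hS0 : ∀ t, 0 ≤ S t := fun t => Finset.sum_nonneg fun _ _ => abs_nonneg _
  set E : ℝ := 1 + ∑ t, S t with hEdef
  have hSE : ∀ t, S t ≤ E := fun t => by
    have h := Finset.single_le_sum (f := S) (fun i _ => hS0 i) (Finset.mem_univ t)
    linarith
  have hE1 : 1 ≤ E := by
    have := Finset.sum_nonneg (fun i (_ : i ∈ (Finset.univ : Finset (K ≃ₐ[ℚ] K))) => hS0 i)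
    linarith
  have hEpos : 0 < E := by linarith
  have hpw : (0 : ℝ) ≤ 6 ^ m * E ^ (m + 1) := by positivity
  refine ⟨6 ^ m * E ^ (m + 1) + 2 * E, by linarith, ?_⟩
  intro B hB
  have hB2E : 2 * E ≤ B := by linarith
  have hBpos : 0 < B := by linarith
  set A : ℕ := ⌊B / E⌋₊ with hAdef
  have hBE : 0 ≤ B / E := by positivity
  have hA1 : 1 ≤ A := by
    rw [hAdef, Nat.one_le_floor_iff, le_div_iff₀ hEpos]
    linarith
  have hAle : (A : ℝ) * E ≤ B := by
    have := Nat.floor_le hBE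
    rwa [← hAdef, le_div_iff₀ hEpos] at this
  have hAlt : B / E < (A : ℝ) + 1 := Nat.lt_floor_add_one _
  obtain ⟨M, hM1, hM2, hM3⟩ := chooseM A m hA1 hm1
  have hMpos : (0 : ℝ) < M := by exact_mod_cast hM1
  -- the values
  let v : (J → Fin (A + 1)) → (K ≃ₐ[ℚ] K) → ℝ := fun a t =>
    ∑ j, ((a j : ℕ) : ℝ) * (((e j : K) : ℝ) - ((t (e j) : K) : ℝ))
  have hv : ∀ a t, |v a t| ≤ B := by
    intro a t
    calc |v a t| ≤ ∑ j, |((a j : ℕ) : ℝ) * (((e j : K) : ℝ) - ((t (e j) : K) : ℝ))| :=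
          Finset.abs_sum_le_sum_abs _ _
      _ ≤ ∑ j, (A : ℝ) * |((e j : K) : ℝ) - ((t (e j) : K) : ℝ)| := by
          refine Finset.sum_le_sum fun j _ => ?_
          rw [abs_mul, Nat.abs_cast]
          refine mul_le_mul_of_nonneg_right ?_ (abs_nonneg _)
          have : (a j : ℕ) ≤ A := Nat.lt_succ_iff.mp (a j).2
          exact_mod_cast this
      _ = (A : ℝ) * S t := by rw [hS, Finset.mul_sum]
      _ ≤ (A : ℝ) * E := mul_le_mul_of_nonneg_left (hSE t) (Nat.cast_nonneg _)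
      _ ≤ B := hAle
  have hfl : ∀ a t, ⌊(v a t + B) * M / (2 * B)⌋₊ < M + 1 := by
    intro a t
    have h1 := abs_le.mp (hv a t)
    rw [Nat.lt_succ_iff]
    refine Nat.floor_le_of_le ?_
    rw [div_le_iff₀ (by linarith)]
    nlinarith [h1.2]
  let T : Finset (K ≃ₐ[ℚ] K) := (Finset.univ.erase 1).erase t0
  have hT : T.card = m := by
    have h1 : ((Finset.univ : Finset (K ≃ₐ[ℚ] K)).erase 1).card = m + 1 := by
      rw [Finset.card_erase_of_mem (Finset.mem_univ _), Finset.card_univ, hcG]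
      omega
    have h2 : t0 ∈ (Finset.univ : Finset (K ≃ₐ[ℚ] K)).erase 1 :=
      Finset.mem_erase.mpr ⟨ht0, Finset.mem_univ _⟩
    show ((Finset.univ.erase 1).erase t0).card = m
    rw [Finset.card_erase_of_mem h2, h1]
    omega
  let F : (J → Fin (A + 1)) → (T → Fin (M + 1)) := fun a t =>
    ⟨⌊(v a t.1 + B) * M / (2 * B)⌋₊, hfl a t.1⟩
  have hlt : Fintype.card (T → Fin (M + 1)) < Fintype.card (J → Fin (A + 1)) := by
    rw [Fintype.card_fun, Fintype.card_fun, Fintype.card_fin, Fintype.card_fin,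
      Fintype.card_coe, hT, hcJ]
    exact hM2
  obtain ⟨a, a', hne, hFF⟩ := Fintype.exists_ne_map_eq_of_card_lt F hlt
  let c : J → ℤ := fun j => ((a j : ℕ) : ℤ) - ((a' j : ℕ) : ℤ)
  let z : K := ∑ j, (c j : K) * e j
  have hzt : ∀ t : K ≃ₐ[ℚ] K, (z : ℝ) - ((t z : K) : ℝ)
      = ∑ j, ((c j : ℤ) : ℝ) * (((e j : K) : ℝ) - ((t (e j) : K) : ℝ)) := by
    intro t
    have h1 : t z = ∑ j, (c j : K) * t (e j) := by
      show t (∑ j, (c j : K) * e j) = _
      rw [map_sum]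
      refine Finset.sum_congr rfl fun j _ => ?_
      rw [map_mul, map_intCast]
    have h2 : (z : ℝ) = ∑ j, ((c j : ℤ) : ℝ) * ((e j : K) : ℝ) := by
      show ((∑ j, (c j : K) * e j : K) : ℝ) = _
      push_cast
      rfl
    have h3 : ((t z : K) : ℝ) = ∑ j, ((c j : ℤ) : ℝ) * ((t (e j) : K) : ℝ) := by
      rw [h1]
      push_cast
      rfl
    rw [h2, h3, ← Finset.sum_sub_distrib]
    refine Finset.sum_congr rfl fun j _ => ?_
    ring
  have hc : ∀ j, |((c j : ℤ) : ℝ)| ≤ A := by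
    intro j
    have h1 : (a j : ℕ) ≤ A := Nat.lt_succ_iff.mp (a j).2
    have h2 : (a' j : ℕ) ≤ A := Nat.lt_succ_iff.mp (a' j).2
    have h3 : |c j| ≤ (A : ℤ) := by
      rw [abs_le]
      constructor
      · show -(A : ℤ) ≤ ((a j : ℕ) : ℤ) - ((a' j : ℕ) : ℤ)
        omega
      · show ((a j : ℕ) : ℤ) - ((a' j : ℕ) : ℤ) ≤ (A : ℤ)
        omega
    rw [← Int.cast_abs]
    exact_mod_cast h3
  refine ⟨z, ?_, ?_, ?_, ?_⟩
  · refine IsIntegral.sum _ fun j _ => ?_
    exact (isIntegral_intCast (c j)).mul (hint j)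
  · by_contra hcon
    push Not at hcon
    have hz := (IsGalois.mem_range_algebraMap_iff_fixed (F := ℚ) (E := K) z).mpr hcon
    obtain ⟨q, hq⟩ := hz
    have h0 := hlin c q hq.symm
    apply hne
    funext j
    have h1 : ((a j : ℕ) : ℤ) - ((a' j : ℕ) : ℤ) = 0 := h0 j
    apply Fin.ext
    omega
  · intro t
    rw [hzt t]
    calc |∑ j, ((c j : ℤ) : ℝ) * (((e j : K) : ℝ) - ((t (e j) : K) : ℝ))|
        ≤ ∑ j, |((c j : ℤ) : ℝ) * (((e j : K) : ℝ) - ((t (e j) : K) : ℝ))| :=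
          Finset.abs_sum_le_sum_abs _ _
      _ ≤ ∑ j, (A : ℝ) * |((e j : K) : ℝ) - ((t (e j) : K) : ℝ)| := by
          refine Finset.sum_le_sum fun j _ => ?_
          rw [abs_mul]
          exact mul_le_mul_of_nonneg_right (hc j) (abs_nonneg _)
      _ = (A : ℝ) * S t := by rw [hS, Finset.mul_sum]
      _ ≤ (A : ℝ) * E := mul_le_mul_of_nonneg_left (hSE t) (Nat.cast_nonneg _)
      _ ≤ B := hAle
  · intro t ht
    have hm2 : Module.finrank ℚ K - 2 = m := by omega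
    rw [hm2]
    by_cases h1 : t = 1
    · rw [h1]
      have h2 : (z : ℝ) - (((1 : K ≃ₐ[ℚ] K) z : K) : ℝ) = 0 := by
        rw [AlgEquiv.one_apply, sub_self]
      rw [h2, abs_zero, zero_pow (by omega), zero_mul]
      linarith
    · have htT : t ∈ T := Finset.mem_erase.mpr ⟨ht, Finset.mem_erase.mpr ⟨h1, Finset.mem_univ _⟩⟩
      have hF := congrArg Fin.val (congrFun hFF ⟨t, htT⟩)
      have hF' : ⌊(v a t + B) * M / (2 * B)⌋₊ = ⌊(v a' t + B) * M / (2 * B)⌋₊ := hF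
      have hd := floorLem B (v a t) (v a' t) M hBpos hM1 (hv a t) (hv a' t) hF'
      have hvv : (z : ℝ) - ((t z : K) : ℝ) = v a t - v a' t := by
        rw [hzt t]
        show _ = (∑ j, ((a j : ℕ) : ℝ) * (((e j : K) : ℝ) - ((t (e j) : K) : ℝ)))
          - ∑ j, ((a' j : ℕ) : ℝ) * (((e j : K) : ℝ) - ((t (e j) : K) : ℝ))
        rw [← Finset.sum_sub_distrib]
        refine Finset.sum_congr rfl fun j _ => ?_
        have : ((c j : ℤ) : ℝ) = ((a j : ℕ) : ℝ) - ((a' j : ℕ) : ℝ) := by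
          show (((((a j : ℕ) : ℤ) - ((a' j : ℕ) : ℤ)) : ℤ) : ℝ) = _
          push_cast
          ring
        rw [this]
        ring
      rw [hvv]
      have := arith m A M E B |v a t - v a' t| hE1 hBpos hAlt hM1 hM3 (abs_nonneg _) hd
      linarith

end Pool.Agent.Helper9.FG
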